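import Pool.Agent.Helper553_TR.Step

/-!
# Counting sets that contain no empty ellipse
-/

set_option autoImplicit false

namespace Pool.Agent.Helper553_TR

open Filter Topology

/-- `W` contains no four points on an empty ellipse. -/
def Indep {ι : Type} (P : ι → ℝ × ℝ) (W : Finset ι) : Prop :=
  ∀ f : Fin 4 → ι, Ell P f → ∃ j, f j ∉ W

open Classical in
/-- The generating function of the sets containing no empty ellipse. -/
noncomputable def Z {ι : Type} [Fintype ι] (P : ι → ℝ × ℝ) (t : ℝ) : ℝ :=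
  ∑ W : Finset ι, if Indep P W then t ^ W.card else 0

/-- The permutation `σ` has the base pattern on four columns in `R`. -/
def Good {ρ : ℕ} (σ : Equiv.Perm (Fin ρ)) (R : Finset (Fin ρ)) : Prop :=
  ∃ a b c d : Fin ρ, a < b ∧ b < c ∧ c < d ∧ a ∈ R ∧ b ∈ R ∧ c ∈ R ∧ d ∈ R ∧
    (σ a : ℕ) = 1 ∧ (σ b : ℕ) = 0 ∧ (σ c : ℕ) = 3 ∧ (σ d : ℕ) = 2

lemma exists_perm {ρ : ℕ} (e g : Fin 4 → Fin ρ) (he : Function.Injective e)
    (hg : Function.Injective g) : ∃ σ : Equiv.Perm (Fin ρ), ∀ j, σ (e j) = g j := by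
  classical
  let E : {x // x ∈ Set.range e} ≃ {x // x ∈ Set.range g} :=
    (Equiv.ofInjective e he).symm.trans (Equiv.ofInjective g hg)
  refine ⟨E.extendSubtype, fun j => ?_⟩
  rw [Equiv.extendSubtype_apply_of_mem E (e j) (Set.mem_range_self j)]
  have : (⟨e j, Set.mem_range_self j⟩ : {x // x ∈ Set.range e}) = Equiv.ofInjective e he j := rfl
  simp only [E, this, Equiv.trans_apply, Equiv.symm_apply_apply]
  rfl

lemma exists_good {ρ : ℕ} (R : Finset (Fin ρ)) (hR : 4 ≤ R.card) :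
    ∃ σ : Equiv.Perm (Fin ρ), Good σ R := by
  have hρ : 4 ≤ ρ := hR.trans (by simpa using R.card_le_univ)
  set e := R.orderEmbOfCardLe hR with he
  have hmem : ∀ j, e j ∈ R := fun j => Finset.orderEmbOfCardLe_mem R hR j
  let g : Fin 4 → Fin ρ := fun j =>
    ⟨(![1, 0, 3, 2] : Fin 4 → ℕ) j, lt_of_lt_of_le (by fin_cases j <;> simp) hρ⟩
  have hg : Function.Injective g := by
    intro i j hij
    have h := congrArg Fin.val hij
    revert h
    fin_cases i <;> fin_cases j <;> simp [g]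
  obtain ⟨σ, hσ⟩ := exists_perm e g e.injective hg
  refine ⟨σ, e 0, e 1, e 2, e 3, e.strictMono (by decide), e.strictMono (by decide),
    e.strictMono (by decide), hmem 0, hmem 1, hmem 2, hmem 3, ?_, ?_, ?_, ?_⟩
  · rw [hσ]; rfl
  · rw [hσ]; rfl
  · rw [hσ]; rfl
  · rw [hσ]; rfl

open Classical in
lemma count_bad {ρ : ℕ} {θ : ℝ} (h0 : 0 < θ) (h1 : θ ≤ 1)
    (hθ : 1 - 1 / (Nat.factorial ρ : ℝ) ≤ θ ^ ρ) (R : Finset (Fin ρ)) :
    θ ^ 3 * ((Finset.univ.filter fun σ : Equiv.Perm (Fin ρ) => ¬ Good σ R).card : ℝ)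
      ≤ (Nat.factorial ρ : ℝ) * θ ^ R.card := by
  have hfac : (0 : ℝ) < (Nat.factorial ρ : ℝ) := by exact_mod_cast Nat.factorial_pos ρ
  have hcard : Fintype.card (Equiv.Perm (Fin ρ)) = Nat.factorial ρ := by
    rw [Fintype.card_perm, Fintype.card_fin]
  by_cases hR : R.card ≤ 3
  · have h2 : θ ^ 3 ≤ θ ^ R.card := pow_le_pow_of_le_one h0.le h1 hR
    have h3 : ((Finset.univ.filter fun σ : Equiv.Perm (Fin ρ) => ¬ Good σ R).card : ℝ)
        ≤ (Nat.factorial ρ : ℝ) := by
      rw [← hcard]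
      exact_mod_cast Finset.card_le_univ _
    calc θ ^ 3 * ((Finset.univ.filter fun σ : Equiv.Perm (Fin ρ) => ¬ Good σ R).card : ℝ)
        ≤ θ ^ R.card * (Nat.factorial ρ : ℝ) := by gcongr
      _ = _ := by ring
  · push Not at hR
    obtain ⟨σ, hσ⟩ := exists_good R hR
    have h3 : (Finset.univ.filter fun σ : Equiv.Perm (Fin ρ) => ¬ Good σ R).card + 1
        ≤ Nat.factorial ρ := by
      rw [← hcard, ← Finset.card_univ, Nat.succ_le_iff]
      refine Finset.card_lt_card ?_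
      rw [Finset.filter_ssubset]
      exact ⟨σ, Finset.mem_univ _, not_not.2 hσ⟩
    have h3' : ((Finset.univ.filter fun σ : Equiv.Perm (Fin ρ) => ¬ Good σ R).card : ℝ)
        ≤ (Nat.factorial ρ : ℝ) - 1 := by
      have : ((Finset.univ.filter fun σ : Equiv.Perm (Fin ρ) => ¬ Good σ R).card : ℝ) + 1
          ≤ (Nat.factorial ρ : ℝ) := by exact_mod_cast h3
      linarith
    have h4 : R.card ≤ ρ := by simpa using R.card_le_univ
    have h5 : θ ^ ρ ≤ θ ^ R.card := pow_le_pow_of_le_one h0.le h1 h4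
    have h6 : θ ^ 3 ≤ 1 := pow_le_one₀ h0.le h1
    have h7 : (0 : ℝ) ≤ ((Finset.univ.filter fun σ : Equiv.Perm (Fin ρ) => ¬ Good σ R).card : ℝ) :=
      Nat.cast_nonneg _
    calc θ ^ 3 * ((Finset.univ.filter fun σ : Equiv.Perm (Fin ρ) => ¬ Good σ R).card : ℝ)
        ≤ 1 * ((Nat.factorial ρ : ℝ) - 1) := mul_le_mul h6 h3' h7 zero_le_one
      _ = (Nat.factorial ρ : ℝ) * (1 - 1 / (Nat.factorial ρ : ℝ)) := by
          field_simp
      _ ≤ (Nat.factorial ρ : ℝ) * θ ^ R.card := by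
          exact mul_le_mul_of_nonneg_left (hθ.trans h5) hfac.le

section

variable {ι : Type} [Fintype ι] {ρ : ℕ}

open Classical in
/-- The part of `W` in column `c`. -/
noncomputable def colS (W : Finset (Fin ρ × ι)) (c : Fin ρ) : Finset ι :=
  Finset.univ.filter fun i => (c, i) ∈ W

open Classical in
/-- The part of `W` in row `i`. -/
noncomputable def rowS (W : Finset (Fin ρ × ι)) (i : ι) : Finset (Fin ρ) :=
  Finset.univ.filter fun c => (c, i) ∈ W

lemma mem_colS {W : Finset (Fin ρ × ι)} {c : Fin ρ} {i : ι} : i ∈ colS W c ↔ (c, i) ∈ W := by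
  simp [colS]

lemma mem_rowS {W : Finset (Fin ρ × ι)} {c : Fin ρ} {i : ι} : c ∈ rowS W i ↔ (c, i) ∈ W := by
  simp [rowS]

lemma card_eq_sum_row (W : Finset (Fin ρ × ι)) : W.card = ∑ i, (rowS W i).card := by
  classical
  have h1 : W.card = ∑ q : Fin ρ × ι, if q ∈ W then 1 else 0 := by
    rw [Finset.sum_boole, Finset.filter_mem_eq_inter, Finset.univ_inter]
    rfl
  rw [h1, Fintype.sum_prod_type_right]
  refine Finset.sum_congr rfl fun i _ => ?_
  unfold rowS
  rw [Finset.card_filter]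

lemma card_eq_sum_col (W : Finset (Fin ρ × ι)) : W.card = ∑ c, (colS W c).card := by
  classical
  have h1 : W.card = ∑ q : Fin ρ × ι, if q ∈ W then 1 else 0 := by
    rw [Finset.sum_boole, Finset.filter_mem_eq_inter, Finset.univ_inter]
    rfl
  rw [h1, Fintype.sum_prod_type]
  refine Finset.sum_congr rfl fun i _ => ?_
  unfold colS
  rw [Finset.card_filter]

open Classical in
/-- Sets in the product are families of columns. -/
noncomputable def colEquiv : Finset (Fin ρ × ι) ≃ (Fin ρ → Finset ι) where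
  toFun W c := colS W c
  invFun g := Finset.univ.filter fun q => q.2 ∈ g q.1
  left_inv W := by
    ext q
    simp [colS]
  right_inv g := by
    funext c
    ext i
    simp [colS]

open Classical in
lemma sum_col (P : ι → ℝ × ℝ) (s : ℝ) :
    (∑ W : Finset (Fin ρ × ι), if (∀ c, Indep P (colS W c)) then s ^ W.card else 0)
      = (Z P s) ^ ρ := by
  unfold Z
  rw [Fintype.sum_pow]
  refine Fintype.sum_equiv colEquiv _ _ fun W => ?_
  by_cases h : ∀ c, Indep P (colS W c)
  · rw [if_pos h, card_eq_sum_col, ← Finset.prod_pow_eq_pow_sum]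
    refine Finset.prod_congr rfl fun c _ => ?_
    show s ^ (colS W c).card = if Indep P (colS W c) then s ^ (colS W c).card else 0
    rw [if_pos (h c)]
  · rw [if_neg h]
    push Not at h
    obtain ⟨c, hc⟩ := h
    symm
    refine Finset.prod_eq_zero (Finset.mem_univ c) ?_
    show (if Indep P (colS W c) then s ^ (colS W c).card else 0) = 0
    rw [if_neg hc]

open Classical in
lemma count_pi {θ : ℝ} (h0 : 0 < θ) (h1 : θ ≤ 1)
    (hθ : 1 - 1 / (Nat.factorial ρ : ℝ) ≤ θ ^ ρ) (W : Finset (Fin ρ × ι)) :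
    θ ^ (3 * Fintype.card ι) * ((Finset.univ.filter fun π : ι → Equiv.Perm (Fin ρ) =>
      ∀ i, ¬ Good (π i) (rowS W i)).card : ℝ)
      ≤ (Nat.factorial ρ : ℝ) ^ (Fintype.card ι) * θ ^ W.card := by
  have h2 : (Finset.univ.filter fun π : ι → Equiv.Perm (Fin ρ) => ∀ i, ¬ Good (π i) (rowS W i))
      = Fintype.piFinset fun i => Finset.univ.filter fun σ => ¬ Good σ (rowS W i) := by
    ext π
    simp [Fintype.mem_piFinset]
  rw [h2, Fintype.card_piFinset, card_eq_sum_row, ← Finset.prod_pow_eq_pow_sum, pow_mul]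
  push_cast
  have h3 : ∀ x : ℝ, x ^ Fintype.card ι = ∏ _i : ι, x := by
    intro x
    rw [Finset.prod_const, Finset.card_univ]
  rw [h3, h3 (Nat.factorial ρ : ℝ), ← Finset.prod_mul_distrib, ← Finset.prod_mul_distrib]
  refine Finset.prod_le_prod (fun i _ => by positivity) fun i _ => ?_
  exact count_bad h0 h1 hθ _

/-- The recursive step. -/
theorem step_bound {θ T : ℝ} (hT : 0 ≤ T) (hT' : ∀ a b c d : Fin ρ, a < b → b < c → c < d →
    ∀ e : Fin ρ, ∀ m : ℕ, 4 ≤ m → 0 < Dl (row (((e : ℕ) : ℝ), tau T m))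
      ![row (((b : ℕ) : ℝ), 0), row (((a : ℕ) : ℝ), 1), row (((c : ℕ) : ℝ), 3),
        row (((d : ℕ) : ℝ), 2)])
    (h0 : 0 < θ) (h1 : θ ≤ 1)
    (hθ : 1 - 1 / (Nat.factorial ρ : ℝ) ≤ θ ^ ρ) (P : ι → ℝ × ℝ)
    (hP : Function.Injective fun i => (P i).2) {t : ℝ} (ht : 0 < t) :
    ∃ P' : Fin ρ × ι → ℝ × ℝ, (Function.Injective fun q => (P' q).2) ∧
      θ ^ (3 * Fintype.card ι) * Z P' t ≤ (Z P (t * θ)) ^ ρ := by
  classical
  -- choose the scale
  have hε : ∀ π : ι → Equiv.Perm (Fin ρ), ∃ ε : ℝ,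
      (Function.Injective fun q => (step T P π ε q).2) ∧
      (∀ (f : Fin 4 → ι), Ell P f → ∀ c : Fin ρ, Ell (step T P π ε) (fun j => (c, f j))) ∧
      (∀ (i : ι) (a b c d : Fin ρ), a < b → b < c → c < d → (π i a : ℕ) = 1 → (π i b : ℕ) = 0 →
        (π i c : ℕ) = 3 → (π i d : ℕ) = 2 →
        Ell (step T P π ε) ![(b, i), (a, i), (c, i), (d, i)]) := by
    intro π
    have e1 := inj_step hT P π hP
    have e2 : ∀ᶠ ε in 𝓝[>] (0 : ℝ), ∀ (f : Fin 4 → ι), Ell P f → ∀ c : Fin ρ,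
        Ell (step T P π ε) (fun j => (c, f j)) := by
      rw [eventually_all]
      intro f
      by_cases hf : Ell P f
      · have : ∀ᶠ ε in 𝓝[>] (0 : ℝ), ∀ c : Fin ρ, Ell (step T P π ε) (fun j => (c, f j)) := by
          rw [eventually_all]
          intro c
          exact ell_col T P π f hf c
        filter_upwards [this] with ε h _
        exact h
      · exact Eventually.of_forall fun ε h => absurd h hf
    have e3 : ∀ᶠ ε in 𝓝[>] (0 : ℝ), ∀ (i : ι) (a b c d : Fin ρ), a < b → b < c → c < d →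
        (π i a : ℕ) = 1 → (π i b : ℕ) = 0 → (π i c : ℕ) = 3 → (π i d : ℕ) = 2 →
        Ell (step T P π ε) ![(b, i), (a, i), (c, i), (d, i)] := by
      simp only [eventually_all]
      intro i a b c d hab hbc hcd ha hb hc hd
      exact ell_row P π hP i a b c d hab hbc hcd (hT' a b c d hab hbc hcd) ha hb hc hd
    exact (e1.and (e2.and e3)).exists
  choose ε hinj hcol hrow using hε
  have hind : ∀ (π : ι → Equiv.Perm (Fin ρ)) (W : Finset (Fin ρ × ι)),
      Indep (step T P π (ε π)) W →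
      (∀ c, Indep P (colS W c)) ∧ ∀ i, ¬ Good (π i) (rowS W i) := by
    intro π W hW
    refine ⟨fun c f hf => ?_, fun i hg => ?_⟩
    · obtain ⟨j, hj⟩ := hW _ (hcol π f hf c)
      exact ⟨j, fun h => hj (mem_colS.1 h)⟩
    · obtain ⟨a, b, c, d, hab, hbc, hcd, ha, hb, hc, hd, va, vb, vc, vd⟩ := hg
      obtain ⟨j, hj⟩ := hW _ (hrow π i a b c d hab hbc hcd va vb vc vd)
      rw [mem_rowS] at ha hb hc hd
      fin_cases j
      · exact hj hb
      · exact hj ha
      · exact hj hc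
      · exact hj hd
  by_contra hcon
  push Not at hcon
  have hlt : ∀ π : ι → Equiv.Perm (Fin ρ), (Z P (t * θ)) ^ ρ
      < θ ^ (3 * Fintype.card ι) * Z (step T P π (ε π)) t := fun π => hcon _ (hinj π)
  have hsum : ∑ _π : ι → Equiv.Perm (Fin ρ), (Z P (t * θ)) ^ ρ
      < ∑ π : ι → Equiv.Perm (Fin ρ), θ ^ (3 * Fintype.card ι) * Z (step T P π (ε π)) t :=
    Finset.sum_lt_sum_of_nonempty Finset.univ_nonempty fun π _ => hlt π
  have hcard : Fintype.card (ι → Equiv.Perm (Fin ρ)) = (Nat.factorial ρ) ^ Fintype.card ι := by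
    rw [Fintype.card_fun, Fintype.card_perm, Fintype.card_fin]
  rw [Finset.sum_const, Finset.card_univ, hcard, nsmul_eq_mul] at hsum
  push_cast at hsum
  refine absurd hsum (not_lt.2 ?_)
  have hterm : ∀ (π : ι → Equiv.Perm (Fin ρ)), Z (step T P π (ε π)) t
      ≤ ∑ W : Finset (Fin ρ × ι), (if (∀ c, Indep P (colS W c)) then t ^ W.card else 0) *
        (if (∀ i, ¬ Good (π i) (rowS W i)) then 1 else 0) := by
    intro π
    unfold Z
    refine Finset.sum_le_sum fun W _ => ?_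
    by_cases hW : Indep (step T P π (ε π)) W
    · obtain ⟨h1, h2⟩ := hind π W hW
      rw [if_pos hW, if_pos h1, if_pos h2, mul_one]
    · rw [if_neg hW]
      positivity
  calc ∑ π : ι → Equiv.Perm (Fin ρ), θ ^ (3 * Fintype.card ι) * Z (step T P π (ε π)) t
      ≤ ∑ π : ι → Equiv.Perm (Fin ρ), θ ^ (3 * Fintype.card ι) *
        ∑ W : Finset (Fin ρ × ι), (if (∀ c, Indep P (colS W c)) then t ^ W.card else 0) *
        (if (∀ i, ¬ Good (π i) (rowS W i)) then 1 else 0) := by
        refine Finset.sum_le_sum fun π _ => ?_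
        exact mul_le_mul_of_nonneg_left (hterm π) (by positivity)
    _ = ∑ W : Finset (Fin ρ × ι), (if (∀ c, Indep P (colS W c)) then t ^ W.card else 0) *
        (θ ^ (3 * Fintype.card ι) * ((Finset.univ.filter fun π : ι → Equiv.Perm (Fin ρ) =>
      ∀ i, ¬ Good (π i) (rowS W i)).card : ℝ)) := by
        rw [← Finset.mul_sum, Finset.sum_comm, Finset.mul_sum]
        refine Finset.sum_congr rfl fun W _ => ?_
        rw [← Finset.mul_sum, Finset.sum_boole]
        ring
    _ ≤ ∑ W : Finset (Fin ρ × ι), (if (∀ c, Indep P (colS W c)) then t ^ W.card else 0) *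
        ((Nat.factorial ρ : ℝ) ^ (Fintype.card ι) * θ ^ W.card) := by
        refine Finset.sum_le_sum fun W _ => ?_
        refine mul_le_mul_of_nonneg_left (count_pi h0 h1 hθ W) ?_
        positivity
    _ = (Nat.factorial ρ : ℝ) ^ (Fintype.card ι) *
        ∑ W : Finset (Fin ρ × ι), (if (∀ c, Indep P (colS W c)) then (t * θ) ^ W.card else 0) := by
        rw [Finset.mul_sum]
        refine Finset.sum_congr rfl fun W _ => ?_
        split_ifs
        · rw [mul_pow]; ring
        · ring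
    _ = (Nat.factorial ρ : ℝ) ^ (Fintype.card ι) * (Z P (t * θ)) ^ ρ := by
        rw [sum_col]

end

/-- The planar families. -/
theorem exists_family (ρ : ℕ) {θ : ℝ} (h0 : 0 < θ) (h1 : θ ≤ 1)
    (hθ : 1 - 1 / (Nat.factorial ρ : ℝ) ≤ θ ^ ρ) (K : ℕ) :
    ∀ t : ℝ, 0 < t → ∃ (ι : Type) (_ : Fintype ι) (P : ι → ℝ × ℝ),
      (Function.Injective fun i => (P i).2) ∧ Fintype.card ι = ρ ^ K ∧
      θ ^ (3 * K * ρ ^ (K - 1)) * Z P t ≤ (1 + t * θ ^ K) ^ (ρ ^ K) := by
  classical
  obtain ⟨T, hT, hT'⟩ := exists_T ρ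
  induction K with
  | zero =>
    intro t ht
    refine ⟨Unit, inferInstance, fun _ => (0, 0), fun _ _ _ => rfl, by simp, ?_⟩
    have hZ : Z (fun _ : Unit => ((0 : ℝ), (0 : ℝ))) t ≤ 1 + t := by
      unfold Z
      calc (∑ W : Finset Unit, if Indep (fun _ : Unit => ((0 : ℝ), (0 : ℝ))) W then t ^ W.card else 0)
          ≤ ∑ W : Finset Unit, t ^ W.card := by
            refine Finset.sum_le_sum fun W _ => ?_
            split_ifs
            · exact le_rfl
            · positivity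
        _ = 1 + t := by
            have : (Finset.univ : Finset (Finset Unit)) = {∅, {()}} := by decide
            rw [this, Finset.sum_pair (by decide)]
            simp
    simpa using hZ
  | succ K ih =>
    intro t ht
    obtain ⟨ι, _, P, hP, hcard, hZ⟩ := ih (t * θ) (by positivity)
    obtain ⟨P', hP', hZ'⟩ := step_bound hT hT' h0 h1 hθ P hP ht
    refine ⟨Fin ρ × ι, inferInstance, P', hP', by simp [hcard, pow_succ, mul_comm], ?_⟩
    have hZnn : 0 ≤ Z P (t * θ) := by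
      unfold Z
      refine Finset.sum_nonneg fun W _ => ?_
      positivity
    have e1 : 3 * (K + 1) * ρ ^ (K + 1 - 1) = 3 * K * ρ ^ (K - 1) * ρ + 3 * Fintype.card ι := by
      rw [hcard, Nat.add_sub_cancel]
      rcases Nat.eq_zero_or_pos K with h | h
      · subst h; simp
      · obtain ⟨k, rfl⟩ := Nat.exists_eq_add_of_lt h
        simp only [zero_add, Nat.add_sub_cancel]
        ring
    calc θ ^ (3 * (K + 1) * ρ ^ (K + 1 - 1)) * Z P' t
        = (θ ^ (3 * K * ρ ^ (K - 1))) ^ ρ * (θ ^ (3 * Fintype.card ι) * Z P' t) := by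
          rw [e1, pow_add, pow_mul]; ring
      _ ≤ (θ ^ (3 * K * ρ ^ (K - 1))) ^ ρ * (Z P (t * θ)) ^ ρ :=
          mul_le_mul_of_nonneg_left hZ' (by positivity)
      _ = (θ ^ (3 * K * ρ ^ (K - 1)) * Z P (t * θ)) ^ ρ := by rw [mul_pow]
      _ ≤ ((1 + t * θ * θ ^ K) ^ (ρ ^ K)) ^ ρ :=
          pow_le_pow_left₀ (by positivity) hZ ρ
      _ = (1 + t * θ ^ (K + 1)) ^ (ρ ^ (K + 1)) := by
          rw [← pow_mul, pow_succ ρ K, pow_succ θ K]
          ring_nf

end Pool.Agent.Helper553_TR
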