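import Pool.Agent.Helper553_TR.Pert

/-!
# Simplicial 4-polytopes with transversal ratio close to one
-/

set_option autoImplicit false

namespace Pool.Agent.Helper553_TR

open Filter Topology

/-- The ambient space. -/
abbrev E4 : Type := EuclideanSpace ℝ (Fin 4)

/-- The point of the ambient space with coordinates `r 1, …, r 4`. -/
noncomputable def pt (r : Fin 5 → ℝ) : E4 := WithLp.toLp 2 fun j => r j.succ

@[simp] lemma pt_apply (r : Fin 5 → ℝ) (j : Fin 4) : pt r j = r j.succ := rfl

/-- Five points with non-zero determinant are affinely independent. -/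
lemma affineIndependent_of_det {r : Fin 5 → Fin 5 → ℝ} (h1 : ∀ j, r j 0 = 1)
    (hdet : (Matrix.of r).det ≠ 0) : AffineIndependent ℝ fun j => pt (r j) := by
  classical
  rw [affineIndependent_iff]
  intro S w hw hwp i hi
  set v : Fin 5 → ℝ := fun j => if j ∈ S then w j else 0 with hv
  have hvM : Matrix.vecMul v (Matrix.of r) = 0 := by
    funext k
    have hk : Matrix.vecMul v (Matrix.of r) k = ∑ j ∈ S, w j * r j k := by
      simp only [Matrix.vecMul, dotProduct, hv, Matrix.of_apply, ite_mul, zero_mul]
      rw [Finset.sum_ite_mem, Finset.univ_inter]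
    rw [hk]
    refine Fin.cases ?_ (fun k => ?_) k
    · simp only [h1, mul_one]
      simpa using hw
    · have := congrArg (fun z : E4 => z k) hwp
      simpa using this
  have hv0 := Matrix.eq_zero_of_vecMul_eq_zero hdet hvM
  have := congrFun hv0 i
  simpa [hv, hi] using this

/-- The linear functional with the coefficients `a`. -/
noncomputable def lin (a : Fin 4 → ℝ) : E4 →ₗ[ℝ] ℝ where
  toFun z := ∑ j, a j * z j
  map_add' x y := by
    simp [mul_add, Finset.sum_add_distrib]
  map_smul' c x := by
    simp only [PiLp.smul_apply, smul_eq_mul, RingHom.id_apply, Finset.mul_sum]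
    refine Finset.sum_congr rfl fun j _ => ?_
    ring

lemma lin_apply (a : Fin 4 → ℝ) (z : E4) : lin a z = ∑ j, a j * z j := rfl

/-- The determinant as an affine functional of its first row. -/
lemma Dl_eq_lin {r : Fin 5 → ℝ} (h1 : r 0 = 1) (f : Fin 4 → Fin 5 → ℝ) :
    Dl r f = Cf f 0 - lin (fun j => - Cf f j.succ) (pt r) := by
  rw [Dl_eq_sum, Fin.sum_univ_succ, h1, lin_apply]
  simp only [pt_apply, one_mul, neg_mul, Finset.sum_neg_distrib, sub_neg_eq_add]
  congr 1
  refine Finset.sum_congr rfl fun j _ => ?_
  ring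

/-- A linear functional constant on five affinely independent points of `E4` vanishes. -/
lemma eq_zero_of_const {p : Fin 5 → E4} (hp : AffineIndependent ℝ p) {f : E4 →ₗ[ℝ] ℝ} {b : ℝ}
    (h : ∀ j, f (p j) = b) : f = 0 := by
  have hspan : affineSpan ℝ (Set.range p) = ⊤ := by
    rw [hp.affineSpan_eq_top_iff_card_eq_finrank_add_one]
    simp
  have hsub : affineSpan ℝ (Set.range p) ≤ (AffineSubspace.comap f.toAffineMap
      (AffineSubspace.mk' b ⊥)) := by
    rw [affineSpan_le]
    rintro _ ⟨j, rfl⟩
    simp [AffineSubspace.mem_mk', h j]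
  have hall : ∀ z, f z = b := by
    intro z
    have hz : z ∈ affineSpan ℝ (Set.range p) := by rw [hspan]; trivial
    have := hsub hz
    simpa [AffineSubspace.mem_comap, AffineSubspace.mem_mk', sub_eq_zero] using this
  have hb : b = 0 := by rw [← hall 0, map_zero]
  ext z
  rw [hall z, hb]
  rfl

theorem main {c : ℝ} (hc : c < 1) (N : ℕ) :
    ∃ S : Finset E4, N ≤ S.card ∧ affineSpan ℝ (S : Set E4) = ⊤ ∧
      (∀ x ∈ S, x ∉ convexHull ℝ ((S.erase x : Finset E4) : Set E4)) ∧
      (∀ f : E4 →ₗ[ℝ] ℝ, f ≠ 0 →
        AffineIndependent ℝ (Subtype.val : {x : E4 // x ∈ S ∧ ∀ y ∈ S, f y ≤ f x} → E4)) ∧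
      ∀ T : Finset E4, T ⊆ S →
        (∀ F : Finset E4, F ⊆ S → F.card = 4 →
          (∃ f : E4 →ₗ[ℝ] ℝ, ∃ b : ℝ, (∀ x ∈ F, f x = b) ∧ ∀ x ∈ S, x ∉ F → f x < b) →
          ∃ x ∈ T, x ∈ F) →
        c * (S.card : ℝ) < (T.card : ℝ) := by
  classical
  obtain ⟨ι, _, P, hP, hcard, hW⟩ := exists_dense_family (δ := 1 - c) (by linarith) (max N 5)
  obtain ⟨r, hr0, hgen, hell, hvert⟩ := exists_perturbation P hP
  set w : ι → E4 := fun i => pt (r i) with hw
  -- the vertex functionals
  set ℓ : ι → E4 →ₗ[ℝ] ℝ := fun i => lin ![2 * (P i).1, -1, 2 * (P i).2, -1] with hℓ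
  have hℓlt : ∀ i k, i ≠ k → ℓ i (w k) < ℓ i (w i) := by
    intro i k hik
    have h1 : ∀ k, ℓ i (w k) = 2 * (P i).1 * r k 1 - r k 2 + 2 * (P i).2 * r k 3 - r k 4 := by
      intro k
      simp only [hℓ, hw, lin_apply, Fin.sum_univ_four, pt_apply]
      simp
      ring_nf
    rw [h1, h1]
    exact hvert i k hik
  have hwinj : Function.Injective w := by
    intro i k h
    by_contra hik
    have := hℓlt i k hik
    rw [h] at this
    exact lt_irrefl _ this
  set S : Finset E4 := Finset.univ.image w with hS
  have hScard : S.card = Fintype.card ι := by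
    rw [hS, Finset.card_image_of_injective _ hwinj, Finset.card_univ]
  have hmem : ∀ i, w i ∈ S := fun i => Finset.mem_image_of_mem _ (Finset.mem_univ i)
  have hex : ∀ x ∈ S, ∃ i, w i = x := by
    intro x hx
    obtain ⟨i, _, hi⟩ := Finset.mem_image.1 hx
    exact ⟨i, hi⟩
  -- any five points of `S` are affinely independent
  have hfive : ∀ p : Fin 5 → E4, (∀ j, p j ∈ S) → Function.Injective p →
      AffineIndependent ℝ p := by
    intro p hp hpi
    choose g hg using fun j => hex (p j) (hp j)
    have hgi : Function.Injective g := by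
      intro a b hab
      apply hpi
      rw [← hg a, ← hg b, hab]
    have h1 := affineIndependent_of_det (r := fun j => r (g j)) (fun j => hr0 _) (hgen g hgi)
    have h2 : (fun j => pt (r (g j))) = p := by
      funext j
      exact hg j
    rwa [h2] at h1
  have hS5 : 5 ≤ S.card := by
    rw [hScard]
    exact (le_max_right _ _).trans hcard
  have hsub5 : ∀ A : Finset E4, A ⊆ S → A.card = 5 →
      AffineIndependent ℝ (Subtype.val : {x : E4 // x ∈ A} → E4) := by
    intro A hA hA5
    have e : Fin 5 ≃ {x : E4 // x ∈ A} := (A.equivFinOfCardEq hA5).symm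
    rw [← affineIndependent_equiv e]
    refine hfive _ (fun j => hA (e j).2) ?_
    exact Subtype.val_injective.comp e.injective
  refine ⟨S, ?_, ?_, ?_, ?_, ?_⟩
  · rw [hScard]
    exact (le_max_left _ _).trans hcard
  · obtain ⟨A, hA, hA5⟩ := Finset.exists_subset_card_eq hS5
    have hAI := hsub5 A hA hA5
    have h1 : affineSpan ℝ (Set.range (Subtype.val : {x : E4 // x ∈ A} → E4)) = ⊤ := by
      rw [hAI.affineSpan_eq_top_iff_card_eq_finrank_add_one]
      simp [hA5]
    have h2 : Set.range (Subtype.val : {x : E4 // x ∈ A} → E4) = (A : Set E4) := by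
      ext x
      simp
    rw [h2] at h1
    rw [eq_top_iff, ← h1]
    exact affineSpan_mono ℝ (by exact_mod_cast hA)
  · intro x hx hxc
    obtain ⟨i, rfl⟩ := hex x hx
    have hconv : Convex ℝ {z : E4 | ℓ i z < ℓ i (w i)} :=
      convex_halfSpace_lt (LinearMap.isLinear (ℓ i)) _
    have hsub : ((S.erase (w i) : Finset E4) : Set E4) ⊆ {z : E4 | ℓ i z < ℓ i (w i)} := by
      intro z hz
      rw [Finset.mem_coe, Finset.mem_erase] at hz
      obtain ⟨k, rfl⟩ := hex z hz.2
      exact hℓlt i k fun h => hz.1 (by rw [h])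
    exact lt_irrefl (ℓ i (w i)) (convexHull_min hsub hconv hxc)
  · intro f hf
    set M : Finset E4 := S.filter fun x => ∀ y ∈ S, f y ≤ f x with hM
    have hM4 : M.card < 5 := by
      by_contra hcon
      push Not at hcon
      obtain ⟨A, hA, hA5⟩ := Finset.exists_subset_card_eq hcon
      have e : Fin 5 ≃ A := (A.equivFinOfCardEq hA5).symm
      have hAM : ∀ j, (e j : E4) ∈ M := fun j => hA (e j).2
      have hAS : ∀ j, (e j : E4) ∈ S := fun j => (Finset.mem_filter.1 (hAM j)).1
      have hmax : ∀ j, ∀ y ∈ S, f y ≤ f (e j : E4) := fun j => (Finset.mem_filter.1 (hAM j)).2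
      have hAI := hfive (fun j => (e j : E4)) hAS (Subtype.val_injective.comp e.injective)
      exact hf (eq_zero_of_const hAI (b := f (e 0 : E4)) fun j =>
        le_antisymm (hmax 0 _ (hAS j)) (hmax j _ (hAS 0)))
    obtain ⟨A, hMA, hAS, hA5⟩ := Finset.exists_subsuperset_card_eq
      (Finset.filter_subset _ S : M ⊆ S) hM4.le hS5
    have hAI := hsub5 A hAS hA5
    have hemb : ∀ x : {x : E4 // x ∈ S ∧ ∀ y ∈ S, f y ≤ f x}, (x : E4) ∈ A := fun x =>
      hMA (Finset.mem_filter.2 x.2)
    exact hAI.comp_embedding ⟨fun x : {x : E4 // x ∈ S ∧ ∀ y ∈ S, f y ≤ f x} =>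
      (⟨x.1, hemb x⟩ : {x : E4 // x ∈ A}), fun x y h => Subtype.ext (Subtype.mk.inj h)⟩
  · intro T hTS hT
    set W : Finset ι := Finset.univ.filter fun i => w i ∉ T with hWdef
    have hind : Indep P W := by
      intro f hf
      by_contra hcon
      push Not at hcon
      obtain ⟨hex0, hpos⟩ := hell f hf
      have hfi : Function.Injective f := by
        intro a b hab
        by_contra hne
        have : Dl ex (fun j => r (f j)) = 0 := by
          unfold Dl
          refine Matrix.det_zero_of_row_eq (i := a.succ) (j := b.succ)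
            (fun h => hne (Fin.succ_injective _ h)) ?_
          show r (f a) = r (f b)
          rw [hab]
        linarith
      have hwfi : Function.Injective fun j => w (f j) := hwinj.comp hfi
      obtain ⟨x, hxT, hxF⟩ := hT (Finset.univ.image fun j => w (f j)) (by
          intro x hx
          obtain ⟨j, _, rfl⟩ := Finset.mem_image.1 hx
          exact hmem _)
        (by rw [Finset.card_image_of_injective _ hwfi, Finset.card_univ, Fintype.card_fin])
        ⟨lin (fun j => - Cf (fun j => r (f j)) j.succ), Cf (fun j => r (f j)) 0, by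
          intro x hx
          obtain ⟨j, _, rfl⟩ := Finset.mem_image.1 hx
          have h1 := Dl_self (fun j => r (f j)) j
          rw [Dl_eq_lin (hr0 _)] at h1
          linarith, by
          intro x hx hxF
          obtain ⟨k, rfl⟩ := hex x hx
          have hk : ∀ j, f j ≠ k := by
            intro j hj
            apply hxF
            rw [← hj]
            exact Finset.mem_image_of_mem _ (Finset.mem_univ j)
          have h1 := hpos k hk
          rw [Dl_eq_lin (hr0 _)] at h1
          have h2 : w k = pt (r k) := rfl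
          rw [h2]
          linarith⟩
      obtain ⟨j, _, rfl⟩ := Finset.mem_image.1 hxF
      exact (Finset.mem_filter.1 (hcon j)).2 hxT
    have h1 := hW W hind
    have h2 : W.card + T.card = Fintype.card ι := by
      have h3 : T.card = (Finset.univ.filter fun i => w i ∈ T).card := by
        rw [← Finset.card_image_of_injective _ hwinj]
        congr 1
        ext x
        simp only [Finset.mem_image, Finset.mem_filter, Finset.mem_univ, true_and]
        constructor
        · intro hx
          obtain ⟨i, hi⟩ := hex x (hTS hx)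
          exact ⟨i, by rwa [hi], hi⟩
        · rintro ⟨i, hi, rfl⟩
          exact hi
      rw [h3, hWdef, add_comm, Finset.card_filter_add_card_filter_not, Finset.card_univ]
    have h3 : (W.card : ℝ) + T.card = Fintype.card ι := by exact_mod_cast h2
    rw [hScard]
    linarith

end Pool.Agent.Helper553_TR
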