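import Mathlib

/-!
# Empty axis-parallel ellipses

The lifted point of `(x, y)` is `(1, x, x ^ 2, y, y ^ 2)`.  Four points of a planar family form a facet of the
convex hull of the lifted family as soon as the conic `a x ^ 2 + b x + c + d y + e y ^ 2 = 0` through them, which
is given by a determinant, has `a, e > 0` and all other points of the family lie outside.
-/

set_option autoImplicit false

namespace Pool.Agent.Helper553_TR

open Filter Topology

/-- The lifted point of `(x, y)`, with a leading `1`. -/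
def row (p : ℝ × ℝ) : Fin 5 → ℝ := ![1, p.1, p.1 ^ 2, p.2, p.2 ^ 2]

/-- The coefficient vector of `x ^ 2`. -/
def ex : Fin 5 → ℝ := ![0, 0, 1, 0, 0]

/-- The coefficient vector of `y ^ 2`. -/
def ey : Fin 5 → ℝ := ![0, 0, 0, 0, 1]

/-- The matrix with first row `r` and further rows `f`. -/
def mat (r : Fin 5 → ℝ) (f : Fin 4 → Fin 5 → ℝ) : Matrix (Fin 5) (Fin 5) ℝ :=
  Matrix.of (Fin.cons r f)

/-- The determinant with first row `r` and further rows `f`. -/
def Dl (r : Fin 5 → ℝ) (f : Fin 4 → Fin 5 → ℝ) : ℝ := (mat r f).det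

lemma mat_zero (r : Fin 5 → ℝ) (f : Fin 4 → Fin 5 → ℝ) (j : Fin 5) : mat r f 0 j = r j := rfl

lemma mat_succ (r : Fin 5 → ℝ) (f : Fin 4 → Fin 5 → ℝ) (i : Fin 4) (j : Fin 5) :
    mat r f i.succ j = f i j := rfl

/-- The cofactors along the first row. -/
def Cf (f : Fin 4 → Fin 5 → ℝ) (j : Fin 5) : ℝ :=
  (-1) ^ (j : ℕ) * (Matrix.of fun a b => f a (j.succAbove b) : Matrix (Fin 4) (Fin 4) ℝ).det

lemma Dl_eq_sum (r : Fin 5 → ℝ) (f : Fin 4 → Fin 5 → ℝ) : Dl r f = ∑ j, r j * Cf f j := by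
  unfold Dl
  rw [Matrix.det_succ_row_zero]
  refine Finset.sum_congr rfl fun j _ => ?_
  rw [mat_zero, Cf]
  have : (mat r f).submatrix Fin.succ j.succAbove
      = (Matrix.of fun a b => f a (j.succAbove b) : Matrix (Fin 4) (Fin 4) ℝ) := by
    ext a b
    rfl
  rw [this]
  ring

lemma Dl_smul (c : ℝ) (r : Fin 5 → ℝ) (f : Fin 4 → Fin 5 → ℝ) : Dl (c • r) f = c * Dl r f := by
  rw [Dl_eq_sum, Dl_eq_sum, Finset.mul_sum]
  refine Finset.sum_congr rfl fun j _ => ?_
  simp only [Pi.smul_apply, smul_eq_mul]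
  ring

lemma Dl_self (f : Fin 4 → Fin 5 → ℝ) (j : Fin 4) : Dl (f j) f = 0 := by
  unfold Dl
  refine Matrix.det_zero_of_row_eq (i := 0) (j := j.succ) (Fin.succ_ne_zero j).symm ?_
  rfl

lemma tendsto_Dl {α : Type*} {l : Filter α} {r : α → Fin 5 → ℝ} {f : α → Fin 4 → Fin 5 → ℝ}
    {r₀ : Fin 5 → ℝ} {f₀ : Fin 4 → Fin 5 → ℝ} (hr : Tendsto r l (𝓝 r₀)) (hf : Tendsto f l (𝓝 f₀)) :
    Tendsto (fun t => Dl (r t) (f t)) l (𝓝 (Dl r₀ f₀)) := by
  have hC : ∀ j, Continuous fun f : Fin 4 → Fin 5 → ℝ => Cf f j := by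
    intro j
    unfold Cf
    refine continuous_const.mul (Continuous.matrix_det ?_)
    refine continuous_matrix fun a b => ?_
    exact (continuous_apply (j.succAbove b)).comp (continuous_apply a)
  simp only [Dl_eq_sum]
  refine tendsto_finsetSum _ fun j _ => ?_
  exact ((tendsto_pi_nhds.1 hr) j).mul (((hC j).tendsto f₀).comp hf)

attribute [irreducible] Dl Cf

lemma tendsto_vec5 {α : Type*} {l : Filter α} {a b c d e : α → ℝ} {a₀ b₀ c₀ d₀ e₀ : ℝ}
    (ha : Tendsto a l (𝓝 a₀)) (hb : Tendsto b l (𝓝 b₀)) (hc : Tendsto c l (𝓝 c₀))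
    (hd : Tendsto d l (𝓝 d₀)) (he : Tendsto e l (𝓝 e₀)) :
    Tendsto (fun t => ![a t, b t, c t, d t, e t]) l (𝓝 ![a₀, b₀, c₀, d₀, e₀]) := by
  rw [tendsto_pi_nhds]
  refine Fin.forall_fin_succ.2 ⟨ha, ?_⟩
  refine Fin.forall_fin_succ.2 ⟨hb, ?_⟩
  refine Fin.forall_fin_succ.2 ⟨hc, ?_⟩
  refine Fin.forall_fin_succ.2 ⟨hd, ?_⟩
  refine Fin.forall_fin_succ.2 ⟨he, ?_⟩
  intro i
  exact i.elim0

lemma continuous_row : Continuous row := by
  unfold row
  fun_prop

/-- The change of coordinates `(x, y) ↦ (s x + u, t y + v)` on lifted points. -/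
def U (s u t v : ℝ) : Matrix (Fin 5) (Fin 5) ℝ :=
  !![1, u, u ^ 2, v, v ^ 2; 0, s, 2 * s * u, 0, 0; 0, 0, s ^ 2, 0, 0; 0, 0, 0, t, 2 * t * v;
    0, 0, 0, 0, t ^ 2]

lemma det_U (s u t v : ℝ) : (U s u t v).det = s ^ 3 * t ^ 3 := by
  have h : (U s u t v).BlockTriangular id := by
    intro i j hij
    fin_cases i <;> fin_cases j <;> first | rfl | (exact absurd hij (by decide))
  rw [Matrix.det_of_isUpperTriangular h]
  simp [U, Fin.prod_univ_succ]
  ring

lemma row_mul_U (s u t v : ℝ) (p : ℝ × ℝ) :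
    Matrix.vecMul (row p) (U s u t v) = row (s * p.1 + u, t * p.2 + v) := by
  ext j
  fin_cases j <;> simp [Matrix.vecMul, dotProduct, Fin.sum_univ_succ, row, U] <;> ring

lemma ex_mul_U (s u t v : ℝ) : Matrix.vecMul ex (U s u t v) = s ^ 2 • ex := by
  ext j
  fin_cases j <;> simp [Matrix.vecMul, dotProduct, Fin.sum_univ_succ, ex, U]

lemma ey_mul_U (s u t v : ℝ) : Matrix.vecMul ey (U s u t v) = t ^ 2 • ey := by
  ext j
  fin_cases j <;> simp [Matrix.vecMul, dotProduct, Fin.sum_univ_succ, ey, U]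

lemma Dl_mul (r : Fin 5 → ℝ) (f : Fin 4 → Fin 5 → ℝ) (M : Matrix (Fin 5) (Fin 5) ℝ) :
    Dl (Matrix.vecMul r M) (fun j => Matrix.vecMul (f j) M) = Dl r f * M.det := by
  unfold Dl
  rw [← Matrix.det_mul]
  congr 1
  ext i j
  refine Fin.cases ?_ (fun i => ?_) i
  · rfl
  · rfl

/-- Four members of the family `P` lie on an empty axis-parallel ellipse. -/
def Ell {ι : Type} (P : ι → ℝ × ℝ) (f : Fin 4 → ι) : Prop :=
  0 < Dl ex (fun j => row (P (f j))) ∧ 0 < Dl ey (fun j => row (P (f j))) ∧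
    ∀ k, (∀ j, f j ≠ k) → 0 < Dl (row (P k)) (fun j => row (P (f j)))

lemma ell_affine {ι : Type} (P : ι → ℝ × ℝ) (f : Fin 4 → ι) {s t : ℝ} (u v : ℝ) (hs : 0 < s)
    (ht : 0 < t) (h : Ell (fun i => (s * (P i).1 + u, t * (P i).2 + v)) f) : Ell P f := by
  have hU : 0 < (U s u t v).det := by rw [det_U]; positivity
  have hf : (fun j => row ((fun i => (s * (P i).1 + u, t * (P i).2 + v)) (f j)))
      = fun j => Matrix.vecMul (row (P (f j))) (U s u t v) := by
    funext j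
    rw [row_mul_U]
  obtain ⟨h1, h2, h3⟩ := h
  rw [hf] at h1 h2
  refine ⟨?_, ?_, fun k hk => ?_⟩
  · have h4 : Dl (s ^ 2 • ex) (fun j => Matrix.vecMul (row (P (f j))) (U s u t v))
        = Dl ex (fun j => row (P (f j))) * (U s u t v).det := by
      rw [← ex_mul_U s u t v, Dl_mul]
    rw [Dl_smul] at h4
    have h5 : 0 < s ^ 2 * Dl ex (fun j => Matrix.vecMul (row (P (f j))) (U s u t v)) :=
      mul_pos (pow_pos hs 2) h1
    rw [h4] at h5
    exact (pos_iff_pos_of_mul_pos h5).2 hU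
  · have h4 : Dl (t ^ 2 • ey) (fun j => Matrix.vecMul (row (P (f j))) (U s u t v))
        = Dl ey (fun j => row (P (f j))) * (U s u t v).det := by
      rw [← ey_mul_U s u t v, Dl_mul]
    rw [Dl_smul] at h4
    have h5 : 0 < t ^ 2 * Dl ey (fun j => Matrix.vecMul (row (P (f j))) (U s u t v)) :=
      mul_pos (pow_pos ht 2) h2
    rw [h4] at h5
    exact (pos_iff_pos_of_mul_pos h5).2 hU
  · have h5 := h3 k hk
    rw [hf] at h5
    simp only at h5
    rw [← row_mul_U, Dl_mul] at h5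
    exact (pos_iff_pos_of_mul_pos h5).2 hU

/-- Points running to infinity in the first coordinate are eventually outside the ellipse. -/
lemma eventually_far_x {α : Type*} {l : Filter α} {f : α → Fin 4 → Fin 5 → ℝ}
    {f₀ : Fin 4 → Fin 5 → ℝ} (hf : Tendsto f l (𝓝 f₀)) (h0 : 0 < Dl ex f₀)
    {c x y : α → ℝ} {s y₀ : ℝ} (hc : Tendsto c l (𝓝 0)) (hc' : ∀ᶠ a in l, 0 < c a)
    (hx : Tendsto (fun a => c a * x a) l (𝓝 s)) (hs : s ≠ 0) (hy : Tendsto y l (𝓝 y₀)) :
    ∀ᶠ a in l, 0 < Dl (row (x a, y a)) (f a) := by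
  have h1 : Tendsto (fun a => (c a) ^ 2 • row (x a, y a)) l (𝓝 (s ^ 2 • ex)) := by
    have e1 : (fun a => (c a) ^ 2 • row (x a, y a))
        = fun a => ![(c a) ^ 2, c a * (c a * x a), (c a * x a) ^ 2, (c a) ^ 2 * y a,
            (c a) ^ 2 * (y a) ^ 2] := by
      funext a
      ext j
      fin_cases j <;> simp [row] <;> ring
    have e2 : s ^ 2 • ex = ![0 ^ 2, 0 * s, s ^ 2, 0 ^ 2 * y₀, 0 ^ 2 * y₀ ^ 2] := by
      ext j
      fin_cases j <;> simp [ex]
    rw [e1, e2]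
    exact tendsto_vec5 (hc.pow 2) (hc.mul hx) (hx.pow 2) ((hc.pow 2).mul hy)
      ((hc.pow 2).mul (hy.pow 2))
  have h2 := tendsto_Dl h1 hf
  have h3 : 0 < Dl (s ^ 2 • ex) f₀ := by rw [Dl_smul]; positivity
  filter_upwards [h2.eventually (lt_mem_nhds h3), hc'] with a ha hca
  rw [Dl_smul] at ha
  exact (pos_iff_pos_of_mul_pos ha).1 (by positivity)

/-- Points running to infinity in the second coordinate are eventually outside the ellipse. -/
lemma eventually_far_y {α : Type*} {l : Filter α} {f : α → Fin 4 → Fin 5 → ℝ}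
    {f₀ : Fin 4 → Fin 5 → ℝ} (hf : Tendsto f l (𝓝 f₀)) (h0 : 0 < Dl ey f₀)
    {c x y : α → ℝ} {s x₀ : ℝ} (hc : Tendsto c l (𝓝 0)) (hc' : ∀ᶠ a in l, 0 < c a)
    (hy : Tendsto (fun a => c a * y a) l (𝓝 s)) (hs : s ≠ 0) (hx : Tendsto x l (𝓝 x₀)) :
    ∀ᶠ a in l, 0 < Dl (row (x a, y a)) (f a) := by
  have h1 : Tendsto (fun a => (c a) ^ 2 • row (x a, y a)) l (𝓝 (s ^ 2 • ey)) := by
    have e1 : (fun a => (c a) ^ 2 • row (x a, y a))
        = fun a => ![(c a) ^ 2, (c a) ^ 2 * x a, (c a) ^ 2 * (x a) ^ 2, c a * (c a * y a),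
            (c a * y a) ^ 2] := by
      funext a
      ext j
      fin_cases j <;> simp [row] <;> ring
    have e2 : s ^ 2 • ey = ![0 ^ 2, 0 ^ 2 * x₀, 0 ^ 2 * x₀ ^ 2, 0 * s, s ^ 2] := by
      ext j
      fin_cases j <;> simp [ey]
    rw [e1, e2]
    exact tendsto_vec5 (hc.pow 2) ((hc.pow 2).mul hx) ((hc.pow 2).mul (hx.pow 2)) (hc.mul hy)
      (hy.pow 2)
  have h2 := tendsto_Dl h1 hf
  have h3 : 0 < Dl (s ^ 2 • ey) f₀ := by rw [Dl_smul]; positivity
  filter_upwards [h2.eventually (lt_mem_nhds h3), hc'] with a ha hca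
  rw [Dl_smul] at ha
  exact (pos_iff_pos_of_mul_pos ha).1 (by positivity)

/-- The base pattern: columns `a < b < c < d`, heights `1, 0, 3, 2`. -/
lemma base_ex {a b c d : ℝ} (hab : a < b) (hbc : b < c) (hcd : c < d) :
    0 < Dl ex ![row (b, 0), row (a, 1), row (c, 3), row (d, 2)] := by
  have h : Dl ex ![row (b, 0), row (a, 1), row (c, 3), row (d, 2)]
      = 6 * (d - a) - 2 * (c - b) := by
    unfold Dl mat
    simp [Matrix.det_succ_row_zero, Fin.sum_univ_succ, row, ex, Fin.succAbove]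
    ring
  rw [h]
  linarith

lemma base_ey {a b c d : ℝ} (hab : a < b) (hbc : b < c) (hcd : c < d) :
    0 < Dl ey ![row (b, 0), row (a, 1), row (c, 3), row (d, 2)] := by
  have h : Dl ey ![row (b, 0), row (a, 1), row (c, 3), row (d, 2)]
      = (c - b) * (d - b) * (d - c) + 3 * ((b - a) * (d - a) * (d - b))
        - 2 * ((b - a) * (c - a) * (c - b)) := by
    unfold Dl mat
    simp [Matrix.det_succ_row_zero, Fin.sum_univ_succ, row, ey, Fin.succAbove]
    ring
  rw [h]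
  have h1 : 0 < (c - b) * (d - b) * (d - c) := by
    have := sub_pos.2 hbc
    have := sub_pos.2 hcd
    have : 0 < d - b := by linarith
    positivity
  have h2 : (b - a) * (c - a) * (c - b) ≤ (b - a) * (d - a) * (d - b) := by
    have h3 : 0 < b - a := sub_pos.2 hab
    have h4 : 0 < c - a := by linarith
    have h5 : 0 < c - b := by linarith
    have h6 : (c - a) * (c - b) ≤ (d - a) * (d - b) :=
      mul_le_mul (by linarith) (by linarith) h5.le (by linarith)
    nlinarith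
  have h7 : 0 < (b - a) * (c - a) * (c - b) := by
    have h3 : 0 < b - a := sub_pos.2 hab
    have h4 : 0 < c - a := by linarith
    have h5 : 0 < c - b := by linarith
    positivity
  linarith

end Pool.Agent.Helper553_TR
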