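import Pool.Agent.Helper553_TR.Final

set_option autoImplicit false

namespace Pool.Agent.Helper553_TR

/-- The negation of the preceding statement: For every d ≥ 4 there are c < 1 and N such that every simplicial d-polytope with n ≥ N vertices has a vertex set of size at most c·n meeting every facet, i.e. the polytope transversal ratio τ^P_d is below 1. -/
theorem neg_S08932 :
    ¬ (∀ d : ℕ, 4 ≤ d → ∃ c : ℝ, c < 1 ∧ ∃ N : ℕ, ∀ S : Finset (EuclideanSpace ℝ (Fin d)),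
    N ≤ S.card →
    affineSpan ℝ (S : Set (EuclideanSpace ℝ (Fin d))) = ⊤ →
    (∀ x ∈ S, x ∉ convexHull ℝ ((S.erase x : Finset (EuclideanSpace ℝ (Fin d))) : Set (EuclideanSpace ℝ (Fin d)))) →
    (∀ f : EuclideanSpace ℝ (Fin d) →ₗ[ℝ] ℝ, f ≠ 0 →
      AffineIndependent ℝ
        (Subtype.val : {x : EuclideanSpace ℝ (Fin d) // x ∈ S ∧ ∀ y ∈ S, f y ≤ f x} →
          EuclideanSpace ℝ (Fin d))) →
    ∃ T : Finset (EuclideanSpace ℝ (Fin d)), T ⊆ S ∧
      (∀ F : Finset (EuclideanSpace ℝ (Fin d)), F ⊆ S → F.card = d →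
        (∃ f : EuclideanSpace ℝ (Fin d) →ₗ[ℝ] ℝ, ∃ b : ℝ,
          (∀ x ∈ F, f x = b) ∧ ∀ x ∈ S, x ∉ F → f x < b) →
        ∃ x ∈ T, x ∈ F) ∧
      (T.card : ℝ) ≤ c * (S.card : ℝ)) := by
  intro h
  obtain ⟨c, hc, N, hN⟩ := h 4 le_rfl
  obtain ⟨S, h1, h2, h3, h4, h5⟩ := Pool.Agent.Helper553_TR.main hc N
  obtain ⟨T, hTS, hT, hTc⟩ := hN S h1 h2
    (fun x hx => by convert h3 x hx) h4
  exact absurd hTc (not_le.2 (h5 T hTS hT))

end Pool.Agent.Helper553_TR
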