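import Pool.Agent.Helper553_TR.Fam

/-!
# Perturbation into general position in dimension four
-/

set_option autoImplicit false

namespace Pool.Agent.Helper553_TR

open Filter Topology

/-- The direction of the perturbation. -/
def mo (s : ℝ) : Fin 5 → ℝ := ![0, s, s ^ 2, s ^ 3, s ^ 4]

/-- The perturbed lifted point. -/
def rp (p : ℝ × ℝ) (s t : ℝ) : Fin 5 → ℝ := row p + t • mo s

lemma rp_zero (p : ℝ × ℝ) (s t : ℝ) : rp p s t 0 = 1 := by
  simp [rp, row, mo]

lemma tendsto_rp (p : ℝ × ℝ) (s : ℝ) : Tendsto (fun t => rp p s t) (𝓝[>] 0) (𝓝 (row p)) := by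
  have h : Tendsto (fun t : ℝ => row p + t • mo s) (𝓝 0) (𝓝 (row p + (0 : ℝ) • mo s)) := by
    refine Continuous.tendsto ?_ _
    fun_prop
  rw [zero_smul, add_zero] at h
  exact tendsto_nhdsWithin_of_tendsto_nhds h

/-- The determinant of five perturbed points is eventually non-zero. -/
lemma eventually_det_ne {p : Fin 5 → ℝ × ℝ} {s : Fin 5 → ℝ} (hs : Function.Injective s) :
    ∀ᶠ t in 𝓝[>] (0 : ℝ), (Matrix.of fun j => rp (p j) (s j) t).det ≠ 0 := by
  set A : Matrix (Fin 5) (Fin 5) ℝ := Matrix.of fun j => row (p j) with hA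
  set B : Matrix (Fin 5) (Fin 5) ℝ := Matrix.of fun j => mo (s j) with hB
  set M : Matrix (Fin 5) (Fin 5) (Polynomial ℝ) :=
    Matrix.of fun i j => Polynomial.C (A i j) + Polynomial.X * Polynomial.C (B i j) with hM
  have hev : ∀ t : ℝ, Polynomial.eval t M.det = (Matrix.of fun j => rp (p j) (s j) t).det := by
    intro t
    have h1 := RingHom.map_det (Polynomial.evalRingHom t) M
    rw [Polynomial.coe_evalRingHom] at h1
    rw [h1]
    congr 1
    ext i j
    simp [hM, hA, hB, rp]
    ring
  have hlim : Tendsto (fun t : ℝ => (Matrix.of fun (j k : Fin 5) =>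
      if k = 0 then (1 : ℝ) else t⁻¹ * rp (p j) (s j) t k).det) atTop
      (𝓝 (Matrix.vandermonde s).det) := by
    have hm : Tendsto (fun t : ℝ => (Matrix.of fun (j k : Fin 5) =>
      if k = 0 then (1 : ℝ) else t⁻¹ * rp (p j) (s j) t k : Matrix (Fin 5) (Fin 5) ℝ)) atTop
      (𝓝 (Matrix.vandermonde s)) := by
      refine tendsto_pi_nhds.2 fun j => ?_
      refine tendsto_pi_nhds.2 fun k => ?_
      have hk : ∀ k : Fin 5, k ≠ 0 → Tendsto (fun t : ℝ => t⁻¹ * rp (p j) (s j) t k) atTop
          (𝓝 (mo (s j) k)) := by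
        intro k _
        have e : (fun t : ℝ => t⁻¹ * row (p j) k + mo (s j) k)
            =ᶠ[atTop] fun t : ℝ => t⁻¹ * rp (p j) (s j) t k := by
          filter_upwards [eventually_gt_atTop 0] with t ht
          simp only [rp, Pi.add_apply, Pi.smul_apply, smul_eq_mul]
          field_simp
        refine Tendsto.congr' e ?_
        simpa using (tendsto_inv_atTop_zero.mul_const (row (p j) k)).add_const (mo (s j) k)
      by_cases h0 : k = 0
      · subst h0
        simp [Matrix.vandermonde_apply]
      · have h1 := hk k h0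
        have h2 : mo (s j) k = Matrix.vandermonde s j k := by
          rw [Matrix.vandermonde_apply]
          revert h0
          fin_cases k <;> simp [mo]
        rw [← h2]
        simpa [h0] using h1
    have hdc : Continuous fun A : Matrix (Fin 5) (Fin 5) ℝ => A.det :=
      Continuous.matrix_det continuous_id
    have h7 := Filter.Tendsto.comp (g := fun A : Matrix (Fin 5) (Fin 5) ℝ => A.det)
      (hdc.tendsto (Matrix.vandermonde s)) hm
    simpa only [Function.comp_def] using h7
  have hV : (Matrix.vandermonde s).det ≠ 0 := Matrix.det_vandermonde_ne_zero_iff.2 hs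
  have hne : M.det ≠ 0 := by
    intro h0
    obtain ⟨t, ht, ht0⟩ := ((hlim.eventually_ne hV).and (eventually_gt_atTop 0)).exists
    apply ht
    have h1 := hev t
    rw [h0, Polynomial.eval_zero] at h1
    have h2 : (Matrix.of fun (j k : Fin 5) =>
        if k = 0 then (1 : ℝ) else t⁻¹ * rp (p j) (s j) t k : Matrix (Fin 5) (Fin 5) ℝ)
        = (Matrix.of fun j => rp (p j) (s j) t) *
          Matrix.diagonal (fun k : Fin 5 => if k = 0 then (1 : ℝ) else t⁻¹) := by
      ext j k
      rw [Matrix.mul_diagonal]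
      by_cases hk : k = 0
      · subst hk
        simp [rp_zero]
      · simp [hk, mul_comm]
    rw [h2, Matrix.det_mul, ← h1, zero_mul]
  have hfin : {t : ℝ | Polynomial.eval t M.det = 0}.Finite := by
    have := Polynomial.finite_setOfPred_isRoot hne
    simpa [Polynomial.IsRoot] using this
  have hfin' : ({t : ℝ | Polynomial.eval t M.det = 0} \ {0}).Finite := hfin.subset Set.sdiff_subset
  have hmem : ({t : ℝ | Polynomial.eval t M.det = 0} \ {0})ᶜ ∈ 𝓝 (0 : ℝ) :=
    hfin'.isClosed.isOpen_compl.mem_nhds (by simp)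
  filter_upwards [mem_nhdsWithin_of_mem_nhds hmem, self_mem_nhdsWithin] with t ht ht0
  rw [← hev t]
  intro h
  exact ht ⟨h, by simpa using (ne_of_gt ht0)⟩

/-- All requirements hold simultaneously after a suitable perturbation. -/
lemma exists_perturbation {ι : Type} [Fintype ι] (P : ι → ℝ × ℝ)
    (hP : Function.Injective fun i => (P i).2) :
    ∃ r : ι → Fin 5 → ℝ, (∀ i, r i 0 = 1) ∧
      (∀ g : Fin 5 → ι, Function.Injective g → (Matrix.of fun j => r (g j)).det ≠ 0) ∧
      (∀ f : Fin 4 → ι, Ell P f → 0 < Dl ex (fun j => r (f j)) ∧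
        ∀ k, (∀ j, f j ≠ k) → 0 < Dl (r k) (fun j => r (f j))) ∧
      (∀ i k, i ≠ k → 2 * (P i).1 * r k 1 - r k 2 + 2 * (P i).2 * r k 3 - r k 4
        < 2 * (P i).1 * r i 1 - r i 2 + 2 * (P i).2 * r i 3 - r i 4) := by
  classical
  set s : ι → ℝ := fun i => ((Fintype.equivFin ι i : ℕ) : ℝ) with hs
  have hsinj : Function.Injective s := by
    intro i j h
    have h1 : (Fintype.equivFin ι i : ℕ) = (Fintype.equivFin ι j : ℕ) := by
      simp only [hs] at h
      exact_mod_cast h
    exact (Fintype.equivFin ι).injective (Fin.ext h1)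
  have h1 : ∀ᶠ t in 𝓝[>] (0 : ℝ), ∀ g : Fin 5 → ι, Function.Injective g →
      (Matrix.of fun j => rp (P (g j)) (s (g j)) t).det ≠ 0 := by
    rw [eventually_all]
    intro g
    by_cases hg : Function.Injective g
    · filter_upwards [eventually_det_ne (p := fun j => P (g j)) (s := fun j => s (g j))
        (hsinj.comp hg)] with t ht _
      exact ht
    · exact Eventually.of_forall fun t h => absurd h hg
  have h2 : ∀ᶠ t in 𝓝[>] (0 : ℝ), ∀ f : Fin 4 → ι, Ell P f →
      0 < Dl ex (fun j => rp (P (f j)) (s (f j)) t) ∧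
        ∀ k, (∀ j, f j ≠ k) → 0 < Dl (rp (P k) (s k) t) (fun j => rp (P (f j)) (s (f j)) t) := by
    rw [eventually_all]
    intro f
    by_cases hf : Ell P f
    · have hft : Tendsto (fun (t : ℝ) (j : Fin 4) => rp (P (f j)) (s (f j)) t) (𝓝[>] 0)
          (𝓝 fun j => row (P (f j))) := by
        rw [tendsto_pi_nhds]
        intro j
        exact tendsto_rp _ _
      have e1 := (tendsto_Dl (tendsto_const_nhds (x := ex)) hft).eventually (lt_mem_nhds hf.1)
      have e2 : ∀ᶠ t in 𝓝[>] (0 : ℝ), ∀ k, (∀ j, f j ≠ k) →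
          0 < Dl (rp (P k) (s k) t) (fun j => rp (P (f j)) (s (f j)) t) := by
        rw [eventually_all]
        intro k
        by_cases hk : ∀ j, f j ≠ k
        · filter_upwards [(tendsto_Dl (tendsto_rp (P k) (s k)) hft).eventually
            (lt_mem_nhds (hf.2.2 k hk))] with t ht _
          exact ht
        · exact Eventually.of_forall fun t h => absurd h hk
      filter_upwards [e1, e2] with t a b _
      exact ⟨a, b⟩
    · exact Eventually.of_forall fun t h => absurd h hf
  have h3 : ∀ᶠ t in 𝓝[>] (0 : ℝ), ∀ i k, i ≠ k →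
      2 * (P i).1 * rp (P k) (s k) t 1 - rp (P k) (s k) t 2 + 2 * (P i).2 * rp (P k) (s k) t 3
        - rp (P k) (s k) t 4
      < 2 * (P i).1 * rp (P i) (s i) t 1 - rp (P i) (s i) t 2 + 2 * (P i).2 * rp (P i) (s i) t 3
        - rp (P i) (s i) t 4 := by
    rw [eventually_all]
    intro i
    rw [eventually_all]
    intro k
    by_cases hik : i = k
    · exact Eventually.of_forall fun t h => absurd hik h
    · have hc : ∀ (k : ι) (j : Fin 5), Tendsto (fun t => rp (P k) (s k) t j) (𝓝[>] 0)
          (𝓝 (row (P k) j)) := fun k j => (tendsto_pi_nhds.1 (tendsto_rp (P k) (s k))) j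
      have hlin : ∀ k : ι, Tendsto (fun t => 2 * (P i).1 * rp (P k) (s k) t 1 - rp (P k) (s k) t 2
          + 2 * (P i).2 * rp (P k) (s k) t 3 - rp (P k) (s k) t 4) (𝓝[>] 0)
          (𝓝 (2 * (P i).1 * row (P k) 1 - row (P k) 2 + 2 * (P i).2 * row (P k) 3
            - row (P k) 4)) := fun k =>
        ((((hc k 1).const_mul _).sub (hc k 2)).add ((hc k 3).const_mul _)).sub (hc k 4)
      have hlt : 2 * (P i).1 * row (P k) 1 - row (P k) 2 + 2 * (P i).2 * row (P k) 3 - row (P k) 4
          < 2 * (P i).1 * row (P i) 1 - row (P i) 2 + 2 * (P i).2 * row (P i) 3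
            - row (P i) 4 := by
        have hy : (P i).2 ≠ (P k).2 := fun h => hik (hP h)
        have h4 : 0 < ((P i).2 - (P k).2) ^ 2 := by
          have := sub_ne_zero.2 hy
          positivity
        have h5 : 0 ≤ ((P i).1 - (P k).1) ^ 2 := sq_nonneg _
        simp only [row, Matrix.cons_val_one, Matrix.cons_val]
        nlinarith
      filter_upwards [(hlin k).eventually_lt (hlin i) hlt] with t ht _
      exact ht
  obtain ⟨t, ha, hb, hc⟩ := (h1.and (h2.and h3)).exists
  exact ⟨fun i => rp (P i) (s i) t, fun i => rp_zero _ _ _, ha, hb, hc⟩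

end Pool.Agent.Helper553_TR
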