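import Pool.Agent.Helper553_TR.Geo

/-!
# The recursive step

From a planar family `P` indexed by `ι` and permutations `π i` of `Fin ρ`, one for each `i : ι`, we form the
family on `Fin ρ × ι` made of `ρ` far apart columns, each nearly a copy of `P`, where the points `(c, i)`,
`c : Fin ρ`, of row `i` are in vertical order given by `π i`.
-/

set_option autoImplicit false

namespace Pool.Agent.Helper553_TR

open Filter Topology

/-- Heights inside a row. -/
def tau (T : ℝ) (m : ℕ) : ℝ := if m < 4 then (m : ℝ) else T + m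

lemma tau_lt {T : ℝ} (hT : 0 ≤ T) {m n : ℕ} (h : m < n) : tau T m < tau T n := by
  have h' : (m : ℝ) < n := by exact_mod_cast h
  unfold tau
  split_ifs with h1 h2 h3
  · exact h'
  · linarith
  · omega
  · linarith

lemma tau_injective {T : ℝ} (hT : 0 ≤ T) : Function.Injective (tau T) :=
  (strictMono_nat_of_lt_succ fun n => tau_lt hT (Nat.lt_succ_self n)).injective

/-- The new family. -/
def step {ι : Type} {ρ : ℕ} (T : ℝ) (P : ι → ℝ × ℝ) (π : ι → Equiv.Perm (Fin ρ)) (ε : ℝ) :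
    Fin ρ × ι → ℝ × ℝ :=
  fun q => (((q.1 : ℕ) : ℝ) + ε * (P q.2).1, (P q.2).2 + ε * tau T (π q.2 q.1))

variable {ι : Type} {ρ : ℕ}

lemma tendsto_eps : Tendsto (fun ε : ℝ => ε) (𝓝[>] 0) (𝓝 0) :=
  tendsto_nhdsWithin_of_tendsto_nhds tendsto_id

lemma tendsto_row_pair {α : Type*} {l : Filter α} {x y : α → ℝ} {x₀ y₀ : ℝ}
    (hx : Tendsto x l (𝓝 x₀)) (hy : Tendsto y l (𝓝 y₀)) :
    Tendsto (fun a => row (x a, y a)) l (𝓝 (row (x₀, y₀))) :=
  (continuous_row.tendsto (x₀, y₀)).comp (hx.prodMk_nhds hy)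

/-- Ellipses of `P` survive in each column. -/
lemma ell_col (T : ℝ) (P : ι → ℝ × ℝ) (π : ι → Equiv.Perm (Fin ρ)) (f : Fin 4 → ι) (h : Ell P f)
    [Finite ι] (c : Fin ρ) :
    ∀ᶠ ε in 𝓝[>] (0 : ℝ), Ell (step T P π ε) (fun j => (c, f j)) := by
  obtain ⟨h1, h2, h3⟩ := h
  -- normalised family
  have hpos : ∀ᶠ ε in 𝓝[>] (0 : ℝ), 0 < ε := eventually_mem_nhdsWithin
  have hf : Tendsto (fun (ε : ℝ) (j : Fin 4) =>
      row (((c : ℕ) : ℝ) * ε⁻¹ + (P (f j)).1 - ((c : ℕ) : ℝ) * ε⁻¹,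
        (P (f j)).2 + ε * tau T (π (f j) c))) (𝓝[>] 0) (𝓝 fun j => row (P (f j))) := by
    rw [tendsto_pi_nhds]
    intro j
    have e : ∀ ε : ℝ, ((c : ℕ) : ℝ) * ε⁻¹ + (P (f j)).1 - ((c : ℕ) : ℝ) * ε⁻¹ = (P (f j)).1 := by
      intro ε; ring
    simp only [e]
    refine tendsto_row_pair tendsto_const_nhds ?_
    simpa using tendsto_const_nhds.add (tendsto_eps.mul_const (tau T (π (f j) c)))
  have key : ∀ᶠ ε in 𝓝[>] (0 : ℝ),
      Ell (fun q => (ε⁻¹ * (step T P π ε q).1 + (-(((c : ℕ) : ℝ) * ε⁻¹)),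
        1 * (step T P π ε q).2 + 0)) (fun j => (c, f j)) := by
    have hrow : ∀ ε : ℝ, 0 < ε → ∀ q : Fin ρ × ι,
        row (ε⁻¹ * (step T P π ε q).1 + (-(((c : ℕ) : ℝ) * ε⁻¹)), 1 * (step T P π ε q).2 + 0)
          = row (((q.1 : ℕ) : ℝ) * ε⁻¹ + (P q.2).1 - ((c : ℕ) : ℝ) * ε⁻¹,
            (P q.2).2 + ε * tau T (π q.2 q.1)) := by
      intro ε hε q
      congr 2
      · simp only [step]
        field_simp
        ring
      · simp only [step]
        ring
    have hE1 := (tendsto_Dl (tendsto_const_nhds (x := ex)) hf).eventually (lt_mem_nhds h1)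
    have hE2 := (tendsto_Dl (tendsto_const_nhds (x := ey)) hf).eventually (lt_mem_nhds h2)
    have hE3 : ∀ᶠ ε in 𝓝[>] (0 : ℝ), ∀ q : Fin ρ × ι, (∀ j, (c, f j) ≠ q) →
        0 < Dl (row (((q.1 : ℕ) : ℝ) * ε⁻¹ + (P q.2).1 - ((c : ℕ) : ℝ) * ε⁻¹,
            (P q.2).2 + ε * tau T (π q.2 q.1))) (fun j =>
          row (((c : ℕ) : ℝ) * ε⁻¹ + (P (f j)).1 - ((c : ℕ) : ℝ) * ε⁻¹,
            (P (f j)).2 + ε * tau T (π (f j) c))) := by
      rw [eventually_all]
      rintro ⟨c', i⟩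
      have hy : Tendsto (fun ε : ℝ => (P i).2 + ε * tau T (π i c')) (𝓝[>] 0) (𝓝 (P i).2) := by
        simpa using tendsto_const_nhds.add (tendsto_eps.mul_const (tau T (π i c')))
      by_cases hc : c' = c
      · subst hc
        by_cases hk : ∀ j, f j ≠ i
        · have hr : Tendsto (fun ε : ℝ => row (((c' : ℕ) : ℝ) * ε⁻¹ + (P i).1 - ((c' : ℕ) : ℝ) * ε⁻¹,
              (P i).2 + ε * tau T (π i c'))) (𝓝[>] 0) (𝓝 (row (P i))) := by
            refine tendsto_row_pair ?_ hy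
            have e : ∀ ε : ℝ, ((c' : ℕ) : ℝ) * ε⁻¹ + (P i).1 - ((c' : ℕ) : ℝ) * ε⁻¹ = (P i).1 := by
              intro ε; ring
            simp only [e]
            exact tendsto_const_nhds
          filter_upwards [(tendsto_Dl hr hf).eventually (lt_mem_nhds (h3 i hk))] with ε hε _
          exact hε
        · push Not at hk
          obtain ⟨j, hj⟩ := hk
          refine Eventually.of_forall fun ε h => ?_
          exact absurd (by rw [hj]) (h j)
      · have hs : (((c' : ℕ) : ℝ) - ((c : ℕ) : ℝ)) ≠ 0 := by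
          rw [sub_ne_zero]
          intro h
          exact hc (Fin.ext (by exact_mod_cast h))
        have hx : Tendsto (fun ε : ℝ => ε * (((c' : ℕ) : ℝ) * ε⁻¹ + (P i).1 - ((c : ℕ) : ℝ) * ε⁻¹))
            (𝓝[>] 0) (𝓝 (((c' : ℕ) : ℝ) - ((c : ℕ) : ℝ))) := by
          have e : (fun ε : ℝ => (((c' : ℕ) : ℝ) - ((c : ℕ) : ℝ)) + ε * (P i).1)
              =ᶠ[𝓝[>] 0] fun ε : ℝ =>
                ε * (((c' : ℕ) : ℝ) * ε⁻¹ + (P i).1 - ((c : ℕ) : ℝ) * ε⁻¹) := by
            filter_upwards [hpos] with ε hε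
            field_simp
            ring
          refine Tendsto.congr' e ?_
          simpa using tendsto_const_nhds.add (tendsto_eps.mul_const (P i).1)
        filter_upwards [eventually_far_x hf h1 tendsto_eps hpos hx hs hy] with ε hε _
        exact hε
    filter_upwards [hE1, hE2, hE3, hpos] with ε e1 e2 e3 hε
    refine ⟨?_, ?_, fun q hq => ?_⟩
    · simp only [hrow ε hε]
      exact e1
    · simp only [hrow ε hε]
      exact e2
    · simp only [hrow ε hε]
      exact e3 q hq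
  filter_upwards [key, hpos] with ε h hε
  exact ell_affine _ _ _ _ (inv_pos.2 hε) one_pos h

/-- Each row whose permutation has the pattern on four columns gives a new ellipse. -/
lemma ell_row {T : ℝ}
    (P : ι → ℝ × ℝ) (π : ι → Equiv.Perm (Fin ρ)) [Finite ι] (hP : Function.Injective fun i => (P i).2)
    (i : ι) (a b c d : Fin ρ) (hab : a < b) (hbc : b < c) (hcd : c < d)
    (hT : ∀ e : Fin ρ, ∀ m : ℕ, 4 ≤ m → 0 < Dl (row (((e : ℕ) : ℝ), tau T m))
      ![row (((b : ℕ) : ℝ), 0), row (((a : ℕ) : ℝ), 1), row (((c : ℕ) : ℝ), 3), row (((d : ℕ) : ℝ), 2)])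
    (ha : (π i a : ℕ) = 1) (hb : (π i b : ℕ) = 0) (hc : (π i c : ℕ) = 3) (hd : (π i d : ℕ) = 2) :
    ∀ᶠ ε in 𝓝[>] (0 : ℝ), Ell (step T P π ε) ![(b, i), (a, i), (c, i), (d, i)] := by
  have hpos : ∀ᶠ ε in 𝓝[>] (0 : ℝ), 0 < ε := eventually_mem_nhdsWithin
  have hab' : ((a : ℕ) : ℝ) < ((b : ℕ) : ℝ) := by exact_mod_cast hab
  have hbc' : ((b : ℕ) : ℝ) < ((c : ℕ) : ℝ) := by exact_mod_cast hbc
  have hcd' : ((c : ℕ) : ℝ) < ((d : ℕ) : ℝ) := by exact_mod_cast hcd
  set F₀ : Fin 4 → Fin 5 → ℝ := ![row (((b : ℕ) : ℝ), 0), row (((a : ℕ) : ℝ), 1),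
    row (((c : ℕ) : ℝ), 3), row (((d : ℕ) : ℝ), 2)] with hF₀
  have h1 : 0 < Dl ex F₀ := base_ex hab' hbc' hcd'
  have h2 : 0 < Dl ey F₀ := base_ey hab' hbc' hcd'
  -- normalised coordinates of the point `(e, k)`
  set X : ℝ → Fin ρ × ι → ℝ := fun ε q => ((q.1 : ℕ) : ℝ) + ε * (P q.2).1 with hX
  set Y : ℝ → Fin ρ × ι → ℝ := fun ε q =>
    ((P q.2).2 - (P i).2) * ε⁻¹ + tau T (π q.2 q.1) with hY
  have hXt : ∀ q, Tendsto (fun ε => X ε q) (𝓝[>] 0) (𝓝 ((q.1 : ℕ) : ℝ)) := by
    intro q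
    simpa [hX] using tendsto_const_nhds.add (tendsto_eps.mul_const (P q.2).1)
  have hYi : ∀ (e : Fin ρ) (ε : ℝ), Y ε (e, i) = tau T (π i e) := by
    intro e ε
    simp [hY]
  have hri : ∀ e : Fin ρ, Tendsto (fun ε => row (X ε (e, i), Y ε (e, i))) (𝓝[>] 0)
      (𝓝 (row (((e : ℕ) : ℝ), tau T (π i e)))) := by
    intro e
    refine tendsto_row_pair (hXt (e, i)) ?_
    simp only [hYi]
    exact tendsto_const_nhds
  have hf : Tendsto (fun (ε : ℝ) (j : Fin 4) =>
      row (X ε ((![(b, i), (a, i), (c, i), (d, i)] : Fin 4 → Fin ρ × ι) j),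
        Y ε ((![(b, i), (a, i), (c, i), (d, i)] : Fin 4 → Fin ρ × ι) j))) (𝓝[>] 0) (𝓝 F₀) := by
    rw [tendsto_pi_nhds]
    refine Fin.forall_fin_succ.2 ⟨?_, ?_⟩
    · have := hri b
      rw [hb] at this
      simpa [hF₀, tau] using this
    refine Fin.forall_fin_succ.2 ⟨?_, ?_⟩
    · have := hri a
      rw [ha] at this
      simpa [hF₀, tau] using this
    refine Fin.forall_fin_succ.2 ⟨?_, ?_⟩
    · have := hri c
      rw [hc] at this
      simpa [hF₀, tau] using this
    refine Fin.forall_fin_succ.2 ⟨?_, fun j => j.elim0⟩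
    · have := hri d
      rw [hd] at this
      simpa [hF₀, tau] using this
  have key : ∀ᶠ ε in 𝓝[>] (0 : ℝ),
      Ell (fun q => (1 * (step T P π ε q).1 + 0,
        ε⁻¹ * (step T P π ε q).2 + (-((P i).2 * ε⁻¹)))) ![(b, i), (a, i), (c, i), (d, i)] := by
    have hrow : ∀ ε : ℝ, 0 < ε → ∀ q : Fin ρ × ι,
        row (1 * (step T P π ε q).1 + 0, ε⁻¹ * (step T P π ε q).2 + (-((P i).2 * ε⁻¹)))
          = row (X ε q, Y ε q) := by
      intro ε hε q
      congr 2
      · simp only [step, hX]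
        ring
      · simp only [step, hY]
        field_simp
        ring
    have hE1 := (tendsto_Dl (tendsto_const_nhds (x := ex)) hf).eventually (lt_mem_nhds h1)
    have hE2 := (tendsto_Dl (tendsto_const_nhds (x := ey)) hf).eventually (lt_mem_nhds h2)
    have hE3 : ∀ᶠ ε in 𝓝[>] (0 : ℝ), ∀ q : Fin ρ × ι,
        (∀ j, (![(b, i), (a, i), (c, i), (d, i)] : Fin 4 → Fin ρ × ι) j ≠ q) →
        0 < Dl (row (X ε q, Y ε q)) (fun j =>
          row (X ε ((![(b, i), (a, i), (c, i), (d, i)] : Fin 4 → Fin ρ × ι) j),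
            Y ε ((![(b, i), (a, i), (c, i), (d, i)] : Fin 4 → Fin ρ × ι) j))) := by
      rw [eventually_all]
      rintro ⟨e, k⟩
      by_cases hk : k = i
      · subst hk
        by_cases hq : ∀ j, (![(b, k), (a, k), (c, k), (d, k)] : Fin 4 → Fin ρ × ι) j ≠ (e, k)
        · have hm : 4 ≤ (π k e : ℕ) := by
            by_contra hlt
            push Not at hlt
            have hinj : ∀ e' : Fin ρ, (π k e' : ℕ) = (π k e : ℕ) → e' = e := fun e' h =>
              (π k).injective (Fin.ext h)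
            have q0 := hq 0
            have q1 := hq 1
            have q2 := hq 2
            have q3 := hq 3
            simp only [Matrix.cons_val_zero, Matrix.cons_val_one, Matrix.cons_val, ne_eq,
              Prod.mk.injEq, and_true] at q0 q1 q2 q3
            rcases (by omega : (π k e : ℕ) = 0 ∨ (π k e : ℕ) = 1 ∨ (π k e : ℕ) = 2 ∨
              (π k e : ℕ) = 3) with h | h | h | h
            · exact q0 (hinj b (by rw [hb, h]))
            · exact q1 (hinj a (by rw [ha, h]))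
            · exact q3 (hinj d (by rw [hd, h]))
            · exact q2 (hinj c (by rw [hc, h]))
          filter_upwards [(tendsto_Dl (hri e) hf).eventually (lt_mem_nhds (hT e _ hm))] with ε hε _
          exact hε
        · push Not at hq
          obtain ⟨j, hj⟩ := hq
          exact Eventually.of_forall fun ε h => absurd hj (h j)
      · have hs : (P k).2 - (P i).2 ≠ 0 := sub_ne_zero.2 fun h => hk (hP h)
        have hy : Tendsto (fun ε : ℝ => ε * Y ε (e, k)) (𝓝[>] 0) (𝓝 ((P k).2 - (P i).2)) := by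
          have e1 : (fun ε : ℝ => ((P k).2 - (P i).2) + ε * tau T (π k e))
              =ᶠ[𝓝[>] 0] fun ε : ℝ => ε * Y ε (e, k) := by
            filter_upwards [hpos] with ε hε
            simp only [hY]
            field_simp
          refine Tendsto.congr' e1 ?_
          simpa using tendsto_const_nhds.add (tendsto_eps.mul_const (tau T (π k e)))
        filter_upwards [eventually_far_y hf h2 tendsto_eps hpos hy hs (hXt (e, k))] with ε hε _
        exact hε
    filter_upwards [hE1, hE2, hE3, hpos] with ε e1 e2 e3 hε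
    refine ⟨?_, ?_, fun q hq => ?_⟩
    · simp only [hrow ε hε]
      exact e1
    · simp only [hrow ε hε]
      exact e2
    · simp only [hrow ε hε]
      exact e3 q hq
  filter_upwards [key, hpos] with ε h hε
  exact ell_affine _ _ _ _ one_pos (inv_pos.2 hε) h

/-- The second coordinates stay distinct. -/
lemma inj_step {T : ℝ} (hT : 0 ≤ T) (P : ι → ℝ × ℝ) (π : ι → Equiv.Perm (Fin ρ)) [Finite ι]
    (hP : Function.Injective fun i => (P i).2) :
    ∀ᶠ ε in 𝓝[>] (0 : ℝ), Function.Injective fun q => (step T P π ε q).2 := by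
  have hpos : ∀ᶠ ε in 𝓝[>] (0 : ℝ), 0 < ε := eventually_mem_nhdsWithin
  have h : ∀ᶠ ε in 𝓝[>] (0 : ℝ), ∀ q q' : Fin ρ × ι, q.2 ≠ q'.2 →
      (step T P π ε q).2 ≠ (step T P π ε q').2 := by
    rw [eventually_all]
    intro q
    rw [eventually_all]
    intro q'
    by_cases hq : q.2 = q'.2
    · exact Eventually.of_forall fun ε h => absurd hq h
    · have ht : Tendsto (fun ε => (step T P π ε q).2 - (step T P π ε q').2) (𝓝[>] 0)
          (𝓝 ((P q.2).2 - (P q'.2).2)) := by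
        have := (tendsto_const_nhds (x := (P q.2).2)).add
          (tendsto_eps.mul_const (tau T (π q.2 q.1)))
        have h2 := (tendsto_const_nhds (x := (P q'.2).2)).add
          (tendsto_eps.mul_const (tau T (π q'.2 q'.1)))
        simpa [step] using this.sub h2
      have hne : (P q.2).2 - (P q'.2).2 ≠ 0 := sub_ne_zero.2 fun h => hq (hP h)
      filter_upwards [ht.eventually_ne hne] with ε hε _
      exact sub_ne_zero.1 hε
  filter_upwards [h, hpos] with ε h hε
  intro q q' hqq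
  simp only at hqq
  by_cases hq : q.2 = q'.2
  · obtain ⟨c, i⟩ := q
    obtain ⟨c', i'⟩ := q'
    simp only at hq
    subst hq
    simp only [step] at hqq
    have h1 : ε * tau T (π i c) = ε * tau T (π i c') := by linarith
    have h2 := tau_injective hT (mul_left_cancel₀ hε.ne' h1)
    have h3 : c = c' := (π i).injective (Fin.ext h2)
    rw [h3]
  · exact absurd hqq (h q q' hq)

/-- A height that is above all ellipses of the base patterns. -/
lemma exists_T (ρ : ℕ) : ∃ T : ℝ, 0 ≤ T ∧ ∀ a b c d : Fin ρ, a < b → b < c → c < d →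
    ∀ e : Fin ρ, ∀ m : ℕ, 4 ≤ m → 0 < Dl (row (((e : ℕ) : ℝ), tau T m))
      ![row (((b : ℕ) : ℝ), 0), row (((a : ℕ) : ℝ), 1), row (((c : ℕ) : ℝ), 3),
        row (((d : ℕ) : ℝ), 2)] := by
  have h : ∀ᶠ S : ℝ in atTop, ∀ a b c d e : Fin ρ, a < b → b < c → c < d →
      0 < Dl (row (((e : ℕ) : ℝ), S))
      ![row (((b : ℕ) : ℝ), 0), row (((a : ℕ) : ℝ), 1), row (((c : ℕ) : ℝ), 3),
        row (((d : ℕ) : ℝ), 2)] := by
    simp only [eventually_all]
    intro a b c d e hab hbc hcd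
    have hab' : ((a : ℕ) : ℝ) < ((b : ℕ) : ℝ) := by exact_mod_cast hab
    have hbc' : ((b : ℕ) : ℝ) < ((c : ℕ) : ℝ) := by exact_mod_cast hbc
    have hcd' : ((c : ℕ) : ℝ) < ((d : ℕ) : ℝ) := by exact_mod_cast hcd
    refine eventually_far_y (c := fun S : ℝ => S⁻¹) (x := fun _ => ((e : ℕ) : ℝ))
      (y := fun S : ℝ => S) (s := 1) tendsto_const_nhds (base_ey hab' hbc' hcd')
      tendsto_inv_atTop_zero ?_ ?_ one_ne_zero tendsto_const_nhds
    · filter_upwards [eventually_gt_atTop 0] with S hS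
      exact inv_pos.2 hS
    · refine Tendsto.congr' ?_ (tendsto_const_nhds (x := (1 : ℝ)))
      filter_upwards [eventually_gt_atTop 0] with S hS
      field_simp
  obtain ⟨T, hT⟩ := eventually_atTop.1 h
  refine ⟨max T 0, le_max_right _ _, fun a b c d hab hbc hcd e m hm => ?_⟩
  refine hT _ ?_ a b c d e hab hbc hcd
  unfold tau
  rw [if_neg (by omega)]
  have := le_max_left T 0
  have h2 : (0 : ℝ) ≤ m := Nat.cast_nonneg m
  linarith

end Pool.Agent.Helper553_TR
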